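import Pool.Agent.H547.CW.Stm

/-!
# Project CW64 (MP_ee25d9_nt), statement S_P
-/

set_option autoImplicit false

namespace Pool.Agent.H117.CW64

open Finset Pool.Agent.R439.PL Pool.Agent.H547.CV Pool.Agent.H547.CW Pool.Agent.H547
open scoped Nat

variable {p : ℕ} [hp : Fact p.Prime]

theorem tau_unit {M s : ℕ} (hpM : p = 4 * M + 3) (hs : s ≤ M) : U p (tau s) := by
  have h4 : U p (4 : ℚ) := by
    have h2 : ¬ (p : ℤ) ∣ (4 : ℤ) := by
      intro h
      have h1 : p ∣ 4 := by exact_mod_cast h
      have h3 : p ∣ 2 := by
        have e : (4 : ℕ) = 2 * 2 := rfl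
        rw [e] at h1
        rcases hp.out.dvd_mul.1 h1 with h | h <;> exact h
      have := Nat.le_of_dvd (by norm_num) h3
      omega
    exact_mod_cast U_int h2
  have h3 : U p (po (3 / 4) s) := by
    unfold po
    refine U.prod fun i hi => ?_
    have hi' := mem_range.1 hi
    have h := (uNat (p := p) (k := 4 * i + 3) (by omega) (by omega)).div h4
    have e : (((4 * i + 3 : ℕ) : ℚ)) / 4 = 3 / 4 + i := by push_cast; ring
    rw [e] at h
    exact h
  have h1 : U p (po (1 / 4) s) := by
    unfold po
    refine U.prod fun i hi => ?_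
    have hi' := mem_range.1 hi
    have h := (uNat (p := p) (k := 4 * i + 1) (by omega) (by omega)).div h4
    have e : (((4 * i + 1 : ℕ) : ℚ)) / 4 = 1 / 4 + i := by push_cast; ring
    rw [e] at h
    exact h
  exact (h3.div h1).pow 2

theorem f_zero (s : ℕ) : f s 0 = tau s := by
  simp [f, po]

theorem Psi_succ (hZ : S_Z) (s n : ℕ) : Psi (s + 1) n - Psi s n = G s n := by
  unfold Psi
  rw [← sum_sub_distrib, sum_congr rfl fun j _ => hZ s j, sum_range_sub]
  have : G s 0 = 0 := by simp [G]
  rw [this, sub_zero]

theorem P (hZ : S_Z) (hV : S_V) (hT : S_T) : S_P := by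
  intro p M hp hpM
  have key : ∀ t : ℕ, t ≤ M + 1 → I p 2 (Psi (M + 1 - t) p) := by
    intro t
    induction t with
    | zero =>
      intro _
      unfold Psi
      exact I.sum fun j _ => hT p M hpM j
    | succ t ih =>
      intro ht
      have h1 := ih (by omega)
      have e : M + 1 - t = (M + 1 - (t + 1)) + 1 := by omega
      rw [e] at h1
      generalize hsd : M + 1 - (t + 1) = s at h1
      have hs : s ≤ M := by omega
      have h2 := Psi_succ hZ s p
      have h3 := (hV p 1 s p (by omega) le_rfl (by omega) (by omega) (by rw [pow_one])).1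
      rw [pow_one, Nat.sub_self, f_zero] at h3
      have h4 : I p 2 (G s p) := by
        apply (tau_unit hpM hs).cancel
        rw [mul_comm]
        exact h3
      have h5 := h1.sub h4
      rw [← h2] at h5
      exact icg h5 (by ring)
  intro s hs
  have h := key (M + 1 - s) (by omega)
  rwa [show M + 1 - (M + 1 - s) = s by omega] at h

end Pool.Agent.H117.CW64
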